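import Pool.Agent.GT.StmtsB

/-!
# Squad GT, row B_PSC: from the canonical cut norm to the cut norm at `j`
-/

namespace Pool.Agent.GT.H15

open Finset

theorem isUnit_sub {K N : ℕ} (hN : N.Coprime K.factorial) (i j : Fin (K + 1)) (hij : i ≠ j) :
    IsUnit (((i : ℕ) : ZMod N) - ((j : ℕ) : ZMod N)) := by
  have key : ∀ m : ℕ, 0 < m → m ≤ K → IsUnit ((m : ℕ) : ZMod N) := by
    intro m h0 hm
    rw [ZMod.isUnit_iff_coprime]
    exact (Nat.Coprime.coprime_dvd_right (Nat.dvd_factorial h0 hm) hN).symm
  have hi := i.isLt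
  have hj := j.isLt
  have hne : (i : ℕ) ≠ (j : ℕ) := fun h => hij (Fin.ext h)
  rcases lt_or_gt_of_ne hne with h | h
  · have h1 := key ((j : ℕ) - (i : ℕ)) (by omega) (by omega)
    rw [Nat.cast_sub h.le] at h1
    have h2 := h1.neg
    rwa [neg_sub] at h2
  · have h1 := key ((i : ℕ) - (j : ℕ)) (by omega) (by omega)
    rwa [Nat.cast_sub h.le] at h1

theorem psc : PscStmt := by
  intro K N _ hN h ε hC j u hu1 hu2
  have hunit : ∀ i : Fin K, IsUnit ((((j.succAbove i : Fin (K + 1)) : ℕ) : ZMod N) -
      ((j : ℕ) : ZMod N)) := fun i => isUnit_sub hN _ _ (Fin.succAbove_ne j i)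
  choose c hc using hunit
  let e : ZMod N × (Fin K → ZMod N) ≃ (Fin (K + 1) → ZMod N) :=
    (Equiv.prodCongr (Equiv.refl _) (Equiv.piCongrRight fun i => Units.mulLeft (c i)⁻¹)).trans
      (Fin.insertNthEquiv (fun _ => ZMod N) j)
  have ej : ∀ t y, e (t, y) j = t := by
    intro t y
    simp [e]
  have es : ∀ t y (i : Fin K), e (t, y) (j.succAbove i) = ((c i)⁻¹ : (ZMod N)ˣ) * y i := by
    intro t y i
    simp [e]
  rw [← av_equiv e, av_prod]
  have hprod : ∀ g : Fin (K + 1) → ℝ, ∏ i ∈ univ.erase j, g i = ∏ i : Fin K, g (j.succAbove i) := by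
    intro g
    rw [Fin.univ_succAbove K j, Finset.erase_cons, Finset.prod_map]
    rfl
  have hpsi : ∀ t y, psi j (e (t, y)) = ∑ i, y i := by
    intro t y
    unfold psi
    rw [Fin.sum_univ_succAbove _ j, sub_self, zero_mul, zero_add]
    refine Finset.sum_congr rfl fun i _ => ?_
    rw [es, ← hc i, Units.mul_inv_cancel_left]
  have key : ∀ t : ZMod N, |av (fun y : Fin K → ZMod N =>
      h (psi j (e (t, y))) * ∏ i ∈ univ.erase j, u i (e (t, y)))| ≤ ε := by
    intro t
    have h1 := hC (fun i y => u (j.succAbove i) (e (t, y))) ?_ ?_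
    · have h2 : (fun y : Fin K → ZMod N =>
          h (psi j (e (t, y))) * ∏ i ∈ univ.erase j, u i (e (t, y))) =
          fun y => h (∑ i, y i) * ∏ i : Fin K, u (j.succAbove i) (e (t, y)) := by
        funext y
        rw [hpsi, hprod]
      rw [h2]
      exact h1
    · intro i y s
      have h3 : e (t, Function.update y i s) =
          Function.update (e (t, y)) (j.succAbove i) (((c i)⁻¹ : (ZMod N)ˣ) * s) := by
        funext l
        rcases Fin.eq_self_or_eq_succAbove j l with hl | ⟨m, hm⟩
        · subst hl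
          rw [ej, Function.update_of_ne (Fin.succAbove_ne l i).symm, ej]
        · subst hm
          rw [es]
          by_cases hmi : m = i
          · subst hmi
            rw [Function.update_self, Function.update_self]
          · rw [Function.update_of_ne hmi, Function.update_of_ne, es]
            intro hh
            exact hmi (Fin.succAbove_right_injective hh)
      show u (j.succAbove i) (e (t, Function.update y i s)) = u (j.succAbove i) (e (t, y))
      rw [h3]
      exact hu1 _ _ _
    · intro i y
      exact hu2 _ _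
  calc |av (fun t : ZMod N => av (fun y : Fin K → ZMod N =>
        h (psi j (e (t, y))) * ∏ i ∈ univ.erase j, u i (e (t, y))))|
      ≤ av (fun t : ZMod N => |av (fun y : Fin K → ZMod N =>
        h (psi j (e (t, y))) * ∏ i ∈ univ.erase j, u i (e (t, y)))|) := abs_av_le _
    _ ≤ av (fun _ : ZMod N => ε) := av_mono key
    _ = ε := av_const ε

end Pool.Agent.GT.H15
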