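import Pool.Agent.GT.StmtsD

/-!
# Squad GT, row D_LDC: twists of products of linear forms
-/

set_option autoImplicit false

namespace Pool.Agent.GT.D.H15

open Polynomial Pool.Agent.NJ Pool.Agent.GT.D

theorem triv_scale {e₂ e₃ lam : ℚ} (hl : lam ≠ 0) (h : Triv e₂ e₃) :
    Triv (lam ^ 2 * e₂) (lam ^ 2 * e₃) := by
  intro X Y hXY
  have h1 : (Y / lam ^ 3) ^ 2 = (X / lam ^ 2) * (X / lam ^ 2 - e₂) * (X / lam ^ 2 - e₃) := by
    field_simp
    linear_combination hXY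
  have h2 := h _ _ h1
  have h3 : lam ^ 3 ≠ 0 := pow_ne_zero _ hl
  rcases div_eq_zero_iff.1 h2 with h | h
  · exact h
  · exact absurd h h3

section
variable {ι : Type} [Fintype ι] [DecidableEq ι] (D : LD ι)

theorem sum_A (u v : ℤ) : D.A 0 u v + D.A 1 u v + D.A 2 u v = 0 := by
  have h := D.sum u v
  rw [Fin.sum_univ_three] at h
  exact h

theorem A_mul {u₀ v₀ u v : ℤ} {p : ι → ℕ} (hL : ∀ l, D.L l u v = D.L l u₀ v₀ * (p l : ℤ))
    (i : Fin 3) : D.A i u v = D.A i u₀ v₀ * ∏ l, (if D.bl l = i then (p l : ℤ) ^ D.m l else 1) := by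
  unfold LD.A
  rw [mul_assoc, ← Finset.prod_mul_distrib]
  congr 1
  refine Finset.prod_congr rfl fun l _ => ?_
  by_cases h : D.bl l = i
  · rw [if_pos h, if_pos h, if_pos h, hL l, mul_pow]
  · rw [if_neg h, if_neg h, if_neg h, mul_one]

theorem F_mul {u₀ v₀ u v : ℤ} {p : ι → ℕ} (hL : ∀ l, D.L l u v = D.L l u₀ v₀ * (p l : ℤ)) :
    D.F u v = D.F u₀ v₀ * ∏ l, (p l : ℤ) ^ D.st l := by
  unfold LD.F
  rw [mul_assoc, ← Finset.prod_mul_distrib]
  congr 1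
  refine Finset.prod_congr rfl fun l _ => ?_
  rw [hL l, mul_pow]

theorem F_ne {u v : ℤ} (hL : ∀ l, D.L l u v ≠ 0) : D.F u v ≠ 0 := by
  unfold LD.F
  exact mul_ne_zero D.g0 (Finset.prod_ne_zero_iff.2 fun l _ => pow_ne_zero _ (hL l))

end

theorem d_ldc (hBas : BasStmt) (hApp : AppStmt) (hInf : InfStmt) (hCho : ChoStmt)
    (hPri : PriStmt) (hSel : ∀ (ι : Type) [Fintype ι] [DecidableEq ι], SelStmt ι) : LdcStmt := by
  intro hGt ι _ _ D
  obtain ⟨u₀, v₀, g₀, a, hL0, hg0, hOld, hA⟩ := hBas ι D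
  obtain ⟨u₁, v₁, n, hdet, hninj, hlin⟩ := hApp ι D u₀ v₀ hL0
  obtain ⟨s, N, ρ, hN, hρ, hchoice⟩ := hCho a hOld
  have hF0 : D.F u₀ v₀ ≠ 0 := F_ne D hL0
  -- the bound for `r`
  have hr : ∀ r : ℕ, r.Prime → 3 + ∑ i, (a i).natAbs + ∑ l, n l ≤ r →
      r ≠ 2 ∧ (∀ i, ¬ (r : ℤ) ∣ a i) ∧ ∀ l, n l < r := by
    intro r _ hle
    refine ⟨by omega, ?_, ?_⟩
    · intro i hdvd
      have h1 : (a i).natAbs ≤ ∑ i, (a i).natAbs :=
        Finset.single_le_sum (f := fun i => (a i).natAbs) (fun _ _ => Nat.zero_le _)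
          (Finset.mem_univ i)
      have h2 : r ∣ (a i).natAbs := Int.natCast_dvd.1 hdvd
      have h3 := Nat.le_of_dvd (Int.natAbs_pos.2 (hOld.ne i)) h2
      omega
    · intro l
      have h1 : n l ≤ ∑ l, n l :=
        Finset.single_le_sum (f := fun l => n l) (fun _ _ => Nat.zero_le _) (Finset.mem_univ l)
      omega
  by_cases hs : s = 0
  · refine ⟨1, N, ρ, 3 + ∑ i, (a i).natAbs + ∑ l, n l, one_ne_zero, hN, hρ, ?_⟩
    intro r hrp hle hmod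
    obtain ⟨h1, h2, -⟩ := hr r hrp hle
    have h4 := (hchoice r hrp h1 h2 hmod).ss
    exfalso
    omega
  refine ⟨2 * s * g₀ * D.F u₀ v₀, N, ρ, 3 + ∑ i, (a i).natAbs + ∑ l, n l, ?_, hN, hρ, ?_⟩
  · exact mul_ne_zero (mul_ne_zero (mul_ne_zero two_ne_zero hs) hg0) hF0
  intro r hrp hle hmod
  obtain ⟨hr2, hrnd, hrn⟩ := hr r hrp hle
  have hch := hchoice r hrp hr2 hrnd hmod
  -- the forms on the line
  have hLl : ∀ (a' d : ℕ) (l : ι), D.L l (u₀ * a' + u₁ * d) (v₀ * a' + v₁ * d) =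
      D.L l u₀ v₀ * ((a' + n l * d : ℕ) : ℤ) := by
    intro a' d l
    rw [hlin]
    push_cast
    ring
  have hAB : ∀ (a' d : ℕ) (i : Fin 3), D.A i (u₀ * a' + u₁ * d) (v₀ * a' + v₁ * d) =
      g₀ * Bn a D.bl D.m (fun l => a' + n l * d) i := by
    intro a' d i
    rw [A_mul D (p := fun l => a' + n l * d) (hLl a' d) i, hA i]
    unfold Bn
    ring
  have hsum : ∀ a' d : ℕ, Bn a D.bl D.m (fun l => a' + n l * d) 0 +
      Bn a D.bl D.m (fun l => a' + n l * d) 1 + Bn a D.bl D.m (fun l => a' + n l * d) 2 = 0 := by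
    intro a' d
    have h := sum_A D (u₀ * a' + u₁ * d) (v₀ * a' + v₁ * d)
    rw [hAB, hAB, hAB] at h
    have h2 : g₀ * (Bn a D.bl D.m (fun l => a' + n l * d) 0 +
      Bn a D.bl D.m (fun l => a' + n l * d) 1 + Bn a D.bl D.m (fun l => a' + n l * d) 2) = 0 := by
      linear_combination h
    exact (mul_eq_zero.1 h2).resolve_left hg0
  have hP := hPri hGt ι a s r D.bl D.m D.st n hOld hch hninj hrn D.st1 ⟨D.N, D.deg, D.par⟩ hsum
  have hinf := hInf u₀ v₀ u₁ v₁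
    (fun a' d => ∃ h : ZMod 2, New a r D.bl D.m D.st (fun l => a' + n l * d) h) hdet hP
  refine hinf.mono ?_
  rintro t ⟨a', d, ha', hd, ⟨h, hnew⟩, hv, rfl⟩
  refine ⟨u₀ * a' + u₁ * d, v₀ * a' + v₁ * d, hv, rfl, ?_, ?_⟩
  · intro l
    rw [hLl]
    refine mul_ne_zero (hL0 l) ?_
    exact_mod_cast (hnew.pr l).ne_zero
  · have hT := hSel ι a s r D.bl D.m D.st (fun l => a' + n l * d) h ⟨hOld, hch, hnew⟩
    have hlam : ((g₀ * D.F u₀ v₀ : ℤ) : ℚ) ≠ 0 := by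
      exact_mod_cast mul_ne_zero hg0 hF0
    have hT2 := triv_scale hlam hT
    have hFm := F_mul D (p := fun l => a' + n l * d) (hLl a' d)
    have key : ∀ i : Fin 3, 2 * s * g₀ * D.F u₀ v₀ * r *
        D.F (u₀ * a' + u₁ * d) (v₀ * a' + v₁ * d) * D.A i (u₀ * a' + u₁ * d) (v₀ * a' + v₁ * d) =
        (g₀ * D.F u₀ v₀) ^ 2 * (Kn s r D.st (fun l => a' + n l * d) *
          Bn a D.bl D.m (fun l => a' + n l * d) i) := by
      intro i
      rw [hAB, hFm]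
      unfold Kn
      ring
    rw [key 2, key 1]
    have e1 : ((-((g₀ * D.F u₀ v₀) ^ 2 * (Kn s r D.st (fun l => a' + n l * d) *
          Bn a D.bl D.m (fun l => a' + n l * d) 2)) : ℤ) : ℚ) =
        ((g₀ * D.F u₀ v₀ : ℤ) : ℚ) ^ 2 * ((-(Kn s r D.st (fun l => a' + n l * d) *
          Bn a D.bl D.m (fun l => a' + n l * d) 2) : ℤ) : ℚ) := by
      push_cast
      ring
    have e2 : (((g₀ * D.F u₀ v₀) ^ 2 * (Kn s r D.st (fun l => a' + n l * d) *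
          Bn a D.bl D.m (fun l => a' + n l * d) 1) : ℤ) : ℚ) =
        ((g₀ * D.F u₀ v₀ : ℤ) : ℚ) ^ 2 * ((Kn s r D.st (fun l => a' + n l * d) *
          Bn a D.bl D.m (fun l => a' + n l * d) 1 : ℤ) : ℚ) := by
      push_cast
      ring
    rw [e1, e2]
    exact hT2

end Pool.Agent.GT.D.H15
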